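import Mathlib

namespace Pool.Agent.Results.MP_ee0f4e_nt.NoIntegralExponent

open Finset

/-- `A_n^{(r)} = ∑_{k=0}^n C(n,k)^r C(n+k,k)^r`. -/
def A (r n : ℕ) : ℕ := ∑ k ∈ range (n + 1), n.choose k ^ r * (n + k).choose k ^ r

/-- The coefficients `c_k^{(r,s)}`, obtained by solving the identities successively. -/
def c (r s : ℕ) (n : ℕ) : ℚ :=
  ((A r n : ℚ) - ∑ k : Fin n, ((n.choose k : ℚ) ^ s * ((n + k).choose k : ℚ) ^ s) * c r s k) /
    ((n.choose n : ℚ) ^ s * ((n + n).choose n : ℚ) ^ s)
termination_by n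
decreasing_by exact k.2

lemma central_ne (s n : ℕ) : ((n.choose n : ℚ) ^ s * ((n + n).choose n : ℚ) ^ s) ≠ 0 := by
  have h1 : 0 < n.choose n := Nat.choose_pos le_rfl
  have h2 : 0 < (n + n).choose n := Nat.choose_pos (Nat.le_add_left n n)
  positivity

/-- `d` solves the defining identities of `c^{(r,s)}`. -/
def Solves (r s : ℕ) (d : ℕ → ℚ) : Prop :=
  ∀ n : ℕ, (A r n : ℚ) =
    ∑ k ∈ range (n + 1), (n.choose k : ℚ) ^ s * ((n + k).choose k : ℚ) ^ s * d k

lemma solves_iff (r s : ℕ) (d : ℕ → ℚ) : Solves r s d ↔ d = c r s := by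
  constructor
  · intro h
    funext n
    induction n using Nat.strong_induction_on with
    | _ n ih =>
      have hn := h n
      rw [sum_range_succ] at hn
      rw [c, eq_div_iff (central_ne s n)]
      have : ∑ k : Fin n, ((n.choose k : ℚ) ^ s * ((n + k).choose k : ℚ) ^ s) * c r s k =
          ∑ k ∈ range n, (n.choose k : ℚ) ^ s * ((n + k).choose k : ℚ) ^ s * d k := by
        rw [← Fin.sum_univ_eq_sum_range
          (fun k => (n.choose k : ℚ) ^ s * ((n + k).choose k : ℚ) ^ s * d k) n]
        refine sum_congr rfl fun k _ => ?_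
        rw [ih k k.2]
      rw [this]
      linarith
  · rintro rfl n
    rw [sum_range_succ]
    have h1 : c r s n * ((n.choose n : ℚ) ^ s * ((n + n).choose n : ℚ) ^ s) =
        (A r n : ℚ) - ∑ k : Fin n,
          ((n.choose k : ℚ) ^ s * ((n + k).choose k : ℚ) ^ s) * c r s k := by
      conv_lhs => rw [c]
      rw [div_mul_cancel₀ _ (central_ne s n)]
    rw [Fin.sum_univ_eq_sum_range
          (fun k => (n.choose k : ℚ) ^ s * ((n + k).choose k : ℚ) ^ s * c r s k) n] at h1
    linarith

/-- Table of the numbers `C(j,i) C(j+i,i)` for `i ≤ j < 18`. -/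
def table : List (List ℕ) :=
  [[1],
  [1, 2],
  [1, 6, 6],
  [1, 12, 30, 20],
  [1, 20, 90, 140, 70],
  [1, 30, 210, 560, 630, 252],
  [1, 42, 420, 1680, 3150, 2772, 924],
  [1, 56, 756, 4200, 11550, 16632, 12012, 3432],
  [1, 72, 1260, 9240, 34650, 72072, 84084, 51480, 12870],
  [1, 90, 1980, 18480, 90090, 252252, 420420, 411840, 218790, 48620],
  [1, 110, 2970, 34320, 210210, 756756, 1681680, 2333760, 1969110, 923780, 184756],
  [1, 132, 4290, 60060, 450450, 2018016, 5717712, 10501920, 12471030, 9237800, 3879876, 705432],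
  [1, 156, 6006, 100100, 900900, 4900896, 17153136, 39907296, 62355150, 64664600, 42678636, 16224936, 2704156],
  [1, 182, 8190, 160160, 1701700, 11027016, 46558512, 133024320, 261891630, 355655300, 327202876, 194699232, 67603900, 10400600],
  [1, 210, 10920, 247520, 3063060, 23279256, 116396280, 399072960, 960269310, 1636014380, 1963217256, 1622493600, 878850700, 280816200, 40116600],
  [1, 240, 14280, 371280, 5290740, 46558512, 271591320, 1097450640, 3155170590, 6544057520, 9816086280, 10546208400, 7909656300, 3931426800, 1163381400, 155117520],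
  [1, 272, 18360, 542640, 8817900, 88884432, 597500904, 2804596080, 9465511770, 23371634000, 42536373880, 56949525360, 55367594100, 38003792400, 17450721000, 4808643120, 601080390],
  [1, 306, 23256, 775200, 14244300, 162954792, 1249320072, 6731030592, 26293088250, 75957810500, 164068870680, 265764451680, 321132045780, 285028443000, 180324117000, 76938289920, 19835652870, 2333606220]]

/-- Lookup in the table. -/
def T (j i : ℕ) : ℕ := (table.getD j []).getD i 0

/-- Weights isolating `3^6 c_5` (`q = 0`) and `3^6 c_17` (`q = 1`) modulo `729`. -/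
def L (q j : ℕ) : ℕ :=
  (if q = 0 then ([594, 0, 621, 720, 0, 252, 0, 0, 0, 0, 0, 0, 0, 0, 0, 0, 0, 0] : List ℕ)
   else [210, 135, 249, 477, 0, 495, 363, 594, 150, 632, 333, 79, 606, 0, 609, 416, 396, 88]).getD j 0

lemma T_fact : ∀ j < 18, ∀ i < 18, i ≤ j →
    T j i * ((j - i).factorial * i.factorial * i.factorial) = (j + i).factorial := by
  decide +kernel

lemma T_zero : ∀ j < 18, ∀ i < 18, j < i → T j i = 0 := by
  decide +kernel

lemma T_eq (j i : ℕ) (hj : j < 18) (hi : i < 18) : T j i = j.choose i * (j + i).choose i := by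
  rcases le_or_gt i j with hij | hij
  · have h1 := T_fact j hj i hi hij
    have h2 := Nat.choose_mul_factorial_mul_factorial hij
    have h3 := Nat.choose_mul_factorial_mul_factorial (Nat.le_add_left i j)
    rw [Nat.add_sub_cancel] at h3
    have h4 : 0 < (j - i).factorial * i.factorial * i.factorial := by positivity
    refine Nat.eq_of_mul_eq_mul_right h4 ?_
    rw [h1, ← h3, ← h2]
    ring
  · rw [T_zero j hj i hi hij, Nat.choose_eq_zero_of_lt hij, zero_mul]

lemma kill : ∀ q < 2, ∀ i < 18, (∑ j ∈ range 18, L q j * T j i ^ 2) % 729 = 0 := by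
  decide +kernel

/-- The weighted sum of the `A_j^{(r)}`, up to a multiple of `729`. -/
def S (q r : ℕ) : ℕ :=
  ∑ j ∈ range 18, L q j * ∑ i ∈ range (j + 1), (T j i % 729) ^ r

lemma check : ∀ r < 492, 3 ≤ r → S 0 r % 729 ≠ 0 ∨ S 1 r % 729 ≠ 0 := by
  decide +kernel

lemma pow_period_nat : ∀ x < 729, x ^ 492 % 729 = x ^ 6 % 729 := by
  decide +kernel

lemma pow_period (x : ZMod 729) : x ^ 492 = x ^ 6 := by
  have h := pow_period_nat x.val (ZMod.val_lt x)
  have h2 : ((x.val ^ 492 : ℕ) : ZMod 729) = ((x.val ^ 6 : ℕ) : ZMod 729) :=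
    (ZMod.natCast_eq_natCast_iff' _ _ _).mpr h
  simpa using h2

lemma exists_small_exponent (r : ℕ) (hr : 3 ≤ r) :
    ∃ r' < 492, 3 ≤ r' ∧ ∀ x : ZMod 729, x ^ r = x ^ r' := by
  rcases lt_or_ge r 492 with h | h
  · exact ⟨r, h, hr, fun _ => rfl⟩
  · refine ⟨6 + (r - 6) % 486, ?_, by omega, ?_⟩
    · have := Nat.mod_lt (r - 6) (show 0 < 486 by norm_num)
      omega
    · intro x
      have key : ∀ t : ℕ, x ^ (6 + 486 * t) = x ^ 6 := by
        intro t
        induction t with
        | zero => simp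
        | succ t ih =>
          have : 6 + 486 * (t + 1) = (6 + 486 * t) + 486 := by ring
          rw [this, pow_add, ih, ← pow_add]
          exact pow_period x
      have h1 : r = (6 + 486 * ((r - 6) / 486)) + (r - 6) % 486 := by
        have := Nat.div_add_mod (r - 6) 486
        omega
      conv_lhs => rw [h1]
      rw [pow_add, key, ← pow_add]

lemma A_eq (r j : ℕ) (hj : j < 18) : A r j = ∑ i ∈ range (j + 1), T j i ^ r := by
  unfold A
  refine sum_congr rfl fun i hi => ?_
  have hi' : i < 18 := by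
    have := mem_range.mp hi
    omega
  rw [T_eq j i hj hi', mul_pow]

lemma S_cast (q r : ℕ) :
    ((S q r : ℕ) : ZMod 729) = ∑ j ∈ range 18, (L q j : ZMod 729) * (A r j : ZMod 729) := by
  unfold S
  rw [Nat.cast_sum]
  refine sum_congr rfl fun j hj => ?_
  rw [Nat.cast_mul, A_eq r j (mem_range.mp hj), Nat.cast_sum, Nat.cast_sum]
  congr 1
  refine sum_congr rfl fun i _ => ?_
  rw [Nat.cast_pow, Nat.cast_pow, ZMod.natCast_mod]

lemma kill_cast (q : ℕ) (hq : q < 2) (i : ℕ) (hi : i < 18) :
    ∑ j ∈ range 18, (L q j : ZMod 729) * (T j i : ZMod 729) ^ 2 = 0 := by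
  have h := kill q hq i hi
  have h2 : ((∑ j ∈ range 18, L q j * T j i ^ 2 : ℕ) : ZMod 729) = 0 :=
    (ZMod.natCast_eq_zero_iff _ _).mpr (Nat.dvd_of_mod_eq_zero h)
  rw [← h2]
  push_cast
  rfl

lemma A_combination (r : ℕ) (z : ℕ → ℤ) (hz : ∀ k < 18, c r 2 k = z k) (j : ℕ) (hj : j < 18) :
    (A r j : ℤ) = ∑ i ∈ range 18, (T j i : ℤ) ^ 2 * z i := by
  have h := (solves_iff r 2 (c r 2)).mpr rfl j
  have h2 : ∑ k ∈ range (j + 1), (j.choose k : ℚ) ^ 2 * ((j + k).choose k : ℚ) ^ 2 * c r 2 k =
      ∑ k ∈ range 18, (T j k : ℚ) ^ 2 * (z k : ℚ) := by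
    have hsub : range (j + 1) ⊆ range 18 := range_subset_range.mpr (by omega)
    rw [← sum_subset hsub]
    · refine sum_congr rfl fun k hk => ?_
      have hk' : k < 18 := by
        have := mem_range.mp hk
        omega
      rw [T_eq j k hj hk', hz k hk', Nat.cast_mul, mul_pow]
    · intro k hk hk2
      have hk' := mem_range.mp hk
      rw [mem_range, not_lt] at hk2
      rw [T_eq j k hj hk', Nat.choose_eq_zero_of_lt (by omega)]
      simp
  rw [h2] at h
  exact_mod_cast h

/-- The numbers `c_k^{(r,s)}` are well defined (`c r s` is the unique solution of the defining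
identities), and for `s = 2`, `n = 17` there is no exponent `r > s` for which
`c_0^{(r,s)}, …, c_n^{(r,s)}` are all integers. -/
theorem result : (∀ r s : ℕ, ∀ d : ℕ → ℚ, Solves r s d ↔ d = c r s) ∧
    (∀ r : ℕ, 2 < r → ∃ k ≤ 17, ¬ ∃ z : ℤ, c r 2 k = z) ∧
    ¬ ∀ s : ℕ, 1 < s → ∀ n : ℕ, ∃ r : ℕ, s < r ∧ ∀ k ≤ n, ∃ z : ℤ, c r s k = z := by
  have main : ∀ r : ℕ, 2 < r → ∃ k ≤ 17, ¬ ∃ z : ℤ, c r 2 k = z := by
    intro r hr
    by_contra hcon
    push Not at hcon
    have hcon' : ∀ k : ℕ, ∃ z : ℤ, k < 18 → c r 2 k = z := by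
      intro k
      rcases lt_or_ge k 18 with hk | hk
      · obtain ⟨z, hz⟩ := hcon k (by omega)
        exact ⟨z, fun _ => hz⟩
      · exact ⟨0, fun h => absurd h (by omega)⟩
    choose z hz using hcon'
    obtain ⟨r', hr'lt, hr'3, hpow⟩ := exists_small_exponent r hr
    have hAr : ∀ j < 18, (A r' j : ZMod 729) = (A r j : ZMod 729) := by
      intro j hj
      rw [A_eq r j hj, A_eq r' j hj, Nat.cast_sum, Nat.cast_sum]
      refine sum_congr rfl fun i _ => ?_
      rw [Nat.cast_pow, Nat.cast_pow, hpow]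
    have hAz : ∀ j < 18, (A r j : ZMod 729) =
        ∑ i ∈ range 18, (T j i : ZMod 729) ^ 2 * (z i : ZMod 729) := by
      intro j hj
      have h := A_combination r z (fun k hk => hz k hk) j hj
      have h2 := congrArg (Int.cast : ℤ → ZMod 729) h
      push_cast at h2
      exact h2
    have hzero : ∀ q < 2, S q r' % 729 = 0 := by
      intro q hq
      apply Nat.mod_eq_zero_of_dvd
      rw [← ZMod.natCast_eq_zero_iff, S_cast]
      calc ∑ j ∈ range 18, (L q j : ZMod 729) * (A r' j : ZMod 729)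
          = ∑ j ∈ range 18, ∑ i ∈ range 18,
              (L q j : ZMod 729) * ((T j i : ZMod 729) ^ 2 * (z i : ZMod 729)) := by
            refine sum_congr rfl fun j hj => ?_
            rw [hAr j (mem_range.mp hj), hAz j (mem_range.mp hj), mul_sum]
        _ = ∑ i ∈ range 18, ∑ j ∈ range 18,
              (L q j : ZMod 729) * ((T j i : ZMod 729) ^ 2 * (z i : ZMod 729)) := sum_comm
        _ = 0 := by
            refine sum_eq_zero fun i hi => ?_
            have hk := kill_cast q hq i (mem_range.mp hi)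
            calc ∑ j ∈ range 18,
                  (L q j : ZMod 729) * ((T j i : ZMod 729) ^ 2 * (z i : ZMod 729))
                = (∑ j ∈ range 18, (L q j : ZMod 729) * (T j i : ZMod 729) ^ 2) *
                    (z i : ZMod 729) := by
                  rw [sum_mul]
                  refine sum_congr rfl fun j _ => ?_
                  ring
              _ = 0 := by rw [hk, zero_mul]
    rcases check r' hr'lt hr'3 with h | h
    · exact h (hzero 0 (by norm_num))
    · exact h (hzero 1 (by norm_num))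
  refine ⟨solves_iff, main, ?_⟩
  intro hall
  obtain ⟨r, hr, hint⟩ := hall 2 (by norm_num) 17
  obtain ⟨k, hk, hno⟩ := main r hr
  exact hno (hint k hk)

end Pool.Agent.Results.MP_ee0f4e_nt.NoIntegralExponent
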